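import Pool.Agent.H34.N6V.Targets

/-! Row VTHF of `n6_modules`: Theorem D for several factors. -/

set_option autoImplicit false

open Polynomial NumberField IsDedekindDomain Pool.Agent.H32.QC Pool.Agent.H34.N6
  Pool.Agent.H13.DEV Pool.Agent.H34.N6V

namespace Pool.Agent.H79.N6V

theorem pf_THF (hTHA : T_THA) (hGLU : T_GLU) : T_THF := by
  intro k ι _ _ _ L _ _ _ P E D e S N p G ε hF hGen hns hgood hreal hle hp hpS hloc hsg
  obtain ⟨ε', hε', hglu⟩ := hGLU k ι P E S N p G ε hF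
    (fun v hv j => ⟨((hgood v hv).each j).intP, (hgood v hv).idem j⟩) hle hp hpS
    (fun v hv => ⟨(hloc v hv).1, (hloc v hv).2.1, (hloc v hv).2.2.1⟩)
  have h := fun j => hTHA k (L j) (P j) D (e j) S p G ε' (hF.mon j) (hGen j) (hns j)
    (fun v hv => (hgood v hv).each j) hreal hp hpS hε' (fun v hv => (hloc v hv).2.2.2 j) (hsg j)
  choose Q hQ1 hQ2 hQ3 hQ4 hQ5 using h
  obtain ⟨G', hG1, hG2, hG3, hG4, hG5⟩ := hglu Q hQ1 hQ3 hQ4
  have he : ∀ j, aeval (e j) G' = aeval (e j) (Q j) := by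
    intro j
    obtain ⟨R, hR⟩ := hG5 j
    have h1 : aeval (e j) (P j) = 0 := by
      rw [← (hGen j).mp]
      exact minpoly.aeval k (e j)
    have h2 : aeval (e j) (G' - Q j) = 0 := by rw [hR, map_mul, h1, zero_mul]
    rw [map_sub, sub_eq_zero] at h2
    exact h2
  refine ⟨G', fun j => ⟨hG1, hG2, ?_, hG3, hG4, ?_⟩⟩
  · rw [he]
    exact hQ2 j
  · rw [he]
    exact hQ5 j

end Pool.Agent.H79.N6V
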